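import Pool.Agent.Helper99.EXC.GoalsE

/-!
# EXC, packet IOE
-/

open Finset MeasureTheory ProbabilityTheory Filter
open scoped ENNReal

namespace Pool.Agent.Helper37.EXC

open Pool.Agent.Helper99.ERW
open Pool.Agent.Helper99.EXC

/-- the stack at `z` is elliptic in direction `e` from visit `q` on -/
def Gq {Ω : Type} (env : Ω → Env 2) (z : Site 2) (e : Dir 2) (q : ℕ) : Set Ω :=
  {w | ∀ i, q ≤ i → (1 : ℝ) / (q + 1) ≤ env w z e i}

/-- time `j` is a visit to `z` after at least `q` earlier visits -/
def Vq {Ω : Type} (X : ℕ → Ω → Site 2) (z : Site 2) (q j : ℕ) : Set Ω :=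
  {w | X j w = z ∧ q ≤ visits (fun r => X r w) j z}

theorem measurableSet_Gq {Ω : Type} (env : Ω → Env 2) (X : ℕ → Ω → Site 2) (z : Site 2)
    (e : Dir 2) (q n : ℕ) : MeasurableSet[hist env X n] (Gq env z e q) := by
  have h1 : Gq env z e q = ⋂ i : ℕ, ⋂ _ : q ≤ i, env ⁻¹' {ω | (1 : ℝ) / (q + 1) ≤ ω z e i} := by
    ext w
    simp only [Gq, Set.mem_ofPred_eq, Set.mem_iInter, Set.mem_preimage]
  rw [h1]
  refine MeasurableSet.iInter fun i => MeasurableSet.iInter fun _ => ?_
  refine measurable_env_hist env X n ?_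
  have h2 : Measurable (fun ω : Env 2 => ω z e i) := by fun_prop
  exact measurableSet_le measurable_const h2

theorem measurableSet_Vq {Ω : Type} (env : Ω → Env 2) (X : ℕ → Ω → Site 2) (z : Site 2)
    (q : ℕ) {j n : ℕ} (hj : j ≤ n) : MeasurableSet[hist env X n] (Vq X z q j) := by
  have h1 : Vq X z q j = {w | X j w = z} ∩ {w | q ≤ visits (fun r => X r w) j z} := by
    ext w
    simp only [Vq, Set.mem_ofPred_eq, Set.mem_inter_iff]
  rw [h1]
  refine MeasurableSet.inter ?_ ?_
  · exact measurable_walk_hist env X hj (measurableSet_singleton z)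
  · exact (measurable_visits_hist env X hj z) (measurableSet_Ici (a := q))

theorem visits_mono (x : ℕ → Site 2) (z : Site 2) {m n : ℕ} (h : m ≤ n) :
    visits x m z ≤ visits x n z := by
  unfold visits
  exact Finset.card_le_card (Finset.filter_subset_filter _ (Finset.range_subset_range.2 h))

theorem exists_Vq {Ω : Type} (X : ℕ → Ω → Site 2) (z : Site 2) (w : Ω)
    (h : ∃ᶠ n in atTop, X n w = z) (k : ℕ) : ∀ q : ℕ, ∃ n, k ≤ n ∧ w ∈ Vq X z q n := by
  intro q
  induction q with
  | zero =>
    obtain ⟨n, hn, hz⟩ := (frequently_atTop.mp h) k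
    exact ⟨n, hn, hz, Nat.zero_le _⟩
  | succ q ih =>
    obtain ⟨n, hn, hz, hv⟩ := ih
    obtain ⟨n', hn', hz'⟩ := (frequently_atTop.mp h) (n + 1)
    refine ⟨n', by omega, hz', ?_⟩
    have h1 := visits_mono (fun r => X r w) z hn'
    have h2 : visits (fun r => X r w) (n + 1) z = visits (fun r => X r w) n z + 1 := by
      rw [visits_succ]
      simp [hz]
    omega

/-- first good visit after time `k` is at time `j` -/
def Fq {Ω : Type} (env : Ω → Env 2) (X : ℕ → Ω → Site 2) (z : Site 2) (e : Dir 2)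
    (q k j : ℕ) : Set Ω :=
  Gq env z e q ∩ (Vq X z q j ∩ ⋂ i ∈ Finset.Ico k j, (Vq X z q i)ᶜ)

theorem measurableSet_Fq {Ω : Type} (env : Ω → Env 2) (X : ℕ → Ω → Site 2) (z : Site 2)
    (e : Dir 2) (q k j : ℕ) : MeasurableSet[hist env X j] (Fq env X z e q k j) := by
  refine (measurableSet_Gq env X z e q j).inter ((measurableSet_Vq env X z q le_rfl).inter ?_)
  refine Finset.measurableSet_biInter _ fun i hi => MeasurableSet.compl ?_
  exact measurableSet_Vq env X z q (Finset.mem_Ico.mp hi).2.le

/-- packet IOE -/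
theorem IOE : IOE_stmt := by
  intro Ω _ P μ _ env X h hC z e hell
  set T : ℕ → ℕ → Set Ω := fun q m => Gq env z e q ∩ {w | (∃ᶠ n in atTop, X n w = z) ∧
    ∀ n, m ≤ n → X n w ≠ z + vec e} with hT
  have hTm : ∀ q m, MeasurableSet[⨆ n, hist env X n] (T q m) := by
    intro q m
    have h1 : {w | (∃ᶠ n in atTop, X n w = z) ∧ ∀ n, m ≤ n → X n w ≠ z + vec e} =
        (⋂ M : ℕ, ⋃ N : ℕ, ⋃ _ : M ≤ N, {w | X N w = z}) ∩
        ⋂ n : ℕ, ⋂ _ : m ≤ n, {w | X n w = z + vec e}ᶜ := by
      ext w
      simp only [Set.mem_ofPred_eq, frequently_atTop, Set.mem_inter_iff, Set.mem_iInter,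
        Set.mem_iUnion, exists_prop, Set.mem_compl_iff]
    rw [hT]
    refine MeasurableSet.inter ?_ ?_
    · exact (le_iSup (hist env X) 0) _ (measurableSet_Gq env X z e q 0)
    rw [h1]
    refine MeasurableSet.inter ?_ ?_
    · exact MeasurableSet.iInter fun M => MeasurableSet.iUnion fun N => MeasurableSet.iUnion
        fun _ => measurable_walk_iSup env X N (measurableSet_singleton z)
    · exact MeasurableSet.iInter fun n => MeasurableSet.iInter fun _ =>
        (measurable_walk_iSup env X n (measurableSet_singleton (z + vec e))).compl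
  have hnull : ∀ q m, μ (T q m) = 0 := by
    intro q m
    have hq0 : (0 : ℝ) < (q : ℝ) + 1 := by positivity
    set κ : ℝ := 1 / (q + 1) with hκ
    have hκ0 : 0 < κ := by rw [hκ]; positivity
    have hκ1 : κ ≤ 1 := by
      rw [hκ, div_le_one hq0]
      have : (0 : ℝ) ≤ q := Nat.cast_nonneg q
      linarith
    refine h.null_of_condexp_bound (hTm q m) (c := 1 - κ) (by linarith) ⟨m, fun k hk A hA => ?_⟩
    have hAj : ∀ j, k ≤ j → MeasurableSet[hist env X j] (A ∩ Fq env X z e q k j) := fun j hj =>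
      (hist_mono env X hj _ hA).inter (measurableSet_Fq env X z e q k j)
    have hpiece : ∀ j, k ≤ j → μ ((A ∩ Fq env X z e q k j) \ stepSet X j e) ≤
        ENNReal.ofReal (1 - κ) * μ (A ∩ Fq env X z e q k j) := by
      intro j hj
      have h1 := h.measureReal_step j e (hAj j hj)
      have hms := h.hist_le j _ (hAj j hj)
      have h2 : κ * μ.real (A ∩ Fq env X z e q k j) ≤
          μ.real (A ∩ Fq env X z e q k j ∩ stepSet X j e) := by
        rw [h1]
        have hint : Integrable (fun w => env w (X j w) e (pastVisits (fun k => X k w) j)) μ :=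
          (integrable_congr (h.step j e)).mp integrable_condExp
        calc κ * μ.real (A ∩ Fq env X z e q k j) = ∫ w in A ∩ Fq env X z e q k j, κ ∂μ := by
              simp [mul_comm]
          _ ≤ _ := by
              refine setIntegral_mono_on (integrable_const κ).integrableOn hint.integrableOn
                hms fun w hw => ?_
              obtain ⟨_, hG, ⟨hz, hv⟩, _⟩ := hw
              rw [pastVisits_eq, hz]
              exact hG _ hv
      have h3 : μ.real (A ∩ Fq env X z e q k j ∩ stepSet X j e) +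
          μ.real ((A ∩ Fq env X z e q k j) \ stepSet X j e) = μ.real (A ∩ Fq env X z e q k j) :=
        measureReal_inter_add_sdiff (h.measurableSet_stepSet j e)
      have h4 : μ.real ((A ∩ Fq env X z e q k j) \ stepSet X j e) ≤
          (1 - κ) * μ.real (A ∩ Fq env X z e q k j) := by linarith
      rw [measureReal_def, measureReal_def] at h4
      have h5 := ENNReal.ofReal_le_ofReal h4
      rw [ENNReal.ofReal_toReal (measure_ne_top _ _),
        ENNReal.ofReal_mul (by linarith), ENNReal.ofReal_toReal (measure_ne_top _ _)] at h5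
      exact h5
    have hcov : A ∩ T q m ⊆ ⋃ j, (A ∩ Fq env X z e q k (k + j)) \ stepSet X (k + j) e := by
      rintro w ⟨hwA, hwG, hw1, hw2⟩
      obtain ⟨n0, hn0, hn0z⟩ := exists_Vq X z w hw1 k q
      have hex : ∃ j, w ∈ Vq X z q (k + j) := ⟨n0 - k, by rw [Nat.add_sub_cancel' hn0]; exact hn0z⟩
      classical
      refine Set.mem_iUnion.mpr ⟨Nat.find hex, ⟨hwA, hwG, Nat.find_spec hex, ?_⟩,
        fun hstep => ?_⟩
      · simp only [Set.mem_iInter, Finset.mem_Ico, Set.mem_compl_iff]
        intro i hi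
        have h3 := Nat.find_min hex (m := i - k) (by omega)
        rw [Nat.add_sub_cancel' hi.1] at h3
        exact h3
      · have h3 : X (k + Nat.find hex + 1) w = X (k + Nat.find hex) w + vec e := hstep
        rw [(Nat.find_spec hex).1] at h3
        exact hw2 _ (by omega) h3
    have hdisj : Pairwise (Function.onFun Disjoint fun j => A ∩ Fq env X z e q k (k + j)) := by
      intro i j hij
      rw [Function.onFun, Set.disjoint_left]
      rintro w ⟨_, _, hw1, hw2⟩ ⟨_, _, hw3, hw4⟩
      simp only [Set.mem_iInter, Finset.mem_Ico, Set.mem_compl_iff] at hw2 hw4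
      rcases Nat.lt_or_gt_of_ne hij with hlt | hlt
      · exact hw4 (k + i) ⟨by omega, by omega⟩ hw1
      · exact hw2 (k + j) ⟨by omega, by omega⟩ hw3
    have hfin : μ (A ∩ T q m) ≤ ENNReal.ofReal (1 - κ) * μ A := by
      calc μ (A ∩ T q m) ≤ μ (⋃ j, (A ∩ Fq env X z e q k (k + j)) \ stepSet X (k + j) e) :=
            measure_mono hcov
        _ ≤ ∑' j, μ ((A ∩ Fq env X z e q k (k + j)) \ stepSet X (k + j) e) := measure_iUnion_le _
        _ ≤ ∑' j, ENNReal.ofReal (1 - κ) * μ (A ∩ Fq env X z e q k (k + j)) :=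
            ENNReal.tsum_le_tsum fun j => hpiece (k + j) (by omega)
        _ = ENNReal.ofReal (1 - κ) * ∑' j, μ (A ∩ Fq env X z e q k (k + j)) := ENNReal.tsum_mul_left
        _ = ENNReal.ofReal (1 - κ) * μ (⋃ j, A ∩ Fq env X z e q k (k + j)) := by
            rw [measure_iUnion hdisj fun j => h.hist_le _ _ (hAj (k + j) (by omega))]
        _ ≤ ENNReal.ofReal (1 - κ) * μ A := by
            gcongr
            exact Set.iUnion_subset fun j => Set.inter_subset_left
    have h5 := ENNReal.toReal_mono (ENNReal.mul_ne_top ENNReal.ofReal_ne_top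
      (measure_ne_top μ A)) hfin
    rw [ENNReal.toReal_mul, ENNReal.toReal_ofReal (by linarith)] at h5
    exact h5
  have hnull' : ∀ᵐ w ∂μ, ∀ q m, w ∉ T q m := by
    rw [ae_all_iff]
    intro q
    rw [ae_all_iff]
    intro m
    exact measure_eq_zero_iff_ae_notMem.mp (hnull q m)
  filter_upwards [hnull', h.ae_env hell] with w hw hE hio
  obtain ⟨κ, hκ, I, hI⟩ := hE
  obtain ⟨q0, hq0⟩ := exists_nat_one_div_lt hκ
  have hG : w ∈ Gq env z e (max q0 I) := by
    intro i hi
    refine le_trans ?_ (hI i (le_trans (le_max_right _ _) hi))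
    refine le_trans ?_ hq0.le
    refine one_div_le_one_div_of_le (by positivity) ?_
    have : (q0 : ℝ) ≤ ((max q0 I : ℕ) : ℝ) := by exact_mod_cast le_max_left _ _
    linarith
  by_contra hcon
  rw [not_frequently, eventually_atTop] at hcon
  obtain ⟨m, hm⟩ := hcon
  exact hw (max q0 I) m ⟨hG, hio, fun n hn => hm n hn⟩

end Pool.Agent.Helper37.EXC
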